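import Pool.Agent.Helper51.TSL.A

namespace Pool.Agent.Helper51.TSL

open Classical Relation

inductive Der (F : Set Tree) : Tree → Tree → Prop
  | sub (f t : Tree) : f ∈ F → Der F f t → Der F (leaf f.root) t
  | node (σ k : ℕ) (c c' : Fin k → Tree) : (∀ i, Der F (c i) (c' i)) →
      Der F (.node σ k c) (.node σ k c')

theorem Der.refl (F : Set Tree) (t : Tree) : Der F t t := by
  induction t with
  | node σ k c ih => exact .node σ k c c ih

theorem Der.root {F : Set Tree} {x t : Tree} (h : Der F x t) : t.root = x.root := by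
  induction h with
  | sub f t _ _ ih => exact ih
  | node => rfl

theorem Der.inv {F : Set Tree} {σ k : ℕ} {c : Fin k → Tree} {t : Tree} (hk : k ≠ 0)
    (h : Der F (.node σ k c) t) : ∃ c', t = .node σ k c' ∧ ∀ i, Der F (c i) (c' i) := by
  generalize hx : Tree.node σ k c = x at h
  cases h with
  | sub f t _ _ =>
    simp only [leaf, Tree.node.injEq] at hx
    exact absurd hx.2.1 hk
  | node σ' k' d c' h =>
    cases hx
    exact ⟨c', rfl, h⟩

theorem Der.step {F : Set Tree} {x y : Tree} (h : Step F x y) : ∀ t, Der F y t → Der F x t := by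
  induction h with
  | here f hf => exact fun t ht => .sub f t hf ht
  | down σ k c i u _ ih =>
    intro t ht
    obtain ⟨c', rfl, h⟩ := ht.inv i.pos.ne'
    refine .node σ k c c' fun j => ?_
    have := h j
    rcases eq_or_ne j i with rfl | hj
    · exact ih _ (by simpa using this)
    · simpa [Function.update_of_ne hj] using this

theorem lift {F : Set Tree} {σ k : ℕ} (c : Fin k → Tree) (i : Fin k) {t : Tree}
    (h : ReflTransGen (Step F) (c i) t) :
    ReflTransGen (Step F) (.node σ k c) (.node σ k (Function.update c i t)) := by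
  induction h with
  | refl => simpa using ReflTransGen.refl
  | @tail u v _ h ih =>
    have := Step.down σ k (Function.update c i u) i v (by simpa using h)
    exact ih.tail (by simpa using this)

theorem der_iff {F : Set Tree} {x t : Tree} : ReflTransGen (Step F) x t ↔ Der F x t := by
  refine ⟨fun h => ?_, fun h => ?_⟩
  · induction h using ReflTransGen.head_induction_on with
    | refl => exact .refl F t
    | head h _ ih => exact Der.step h _ ih
  induction h with
  | sub f t hf _ ih => exact .head (.here f hf) ih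
  | node σ k c c' _ ih =>
    have : ∀ s : Finset (Fin k), ReflTransGen (Step F) (.node σ k c)
        (.node σ k fun i => if i ∈ s then c' i else c i) := fun s => by
      induction s using Finset.induction_on with
      | empty => simpa using ReflTransGen.refl
      | insert i s hi ih2 =>
        have h := lift (F := F) (σ := σ) (fun j => if j ∈ s then c' j else c j) i (t := c' i)
          (by simpa [hi] using ih i)
        refine ih2.trans (by
          convert h using 2
          funext j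
          rcases eq_or_ne j i with rfl | hj
          · simp
          · simp [Function.update_of_ne hj, hj])
    simpa using this Finset.univ

theorem leaf_eq (σ : ℕ) (c : Fin 0 → Tree) : Tree.node σ 0 c = leaf σ := by
  rw [leaf, Subsingleton.elim c Fin.elim0]

def ht : Tree → ℕ
  | .node _ k c => Finset.univ.sup fun i : Fin k => ht (c i) + 1

def Fr (rk : List ℕ) : ℕ → Set Tree
  | 0 => leaf '' {σ | σ < rk.length}
  | n + 1 => leaf '' {σ | σ < rk.length} ∪
      ⋃ σ ∈ {σ | σ < rk.length}, Tree.node σ (rk.getD σ 0) '' {c | ∀ i, c i ∈ Fr rk n}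

theorem fr_fin (rk : List ℕ) : ∀ n, (Fr rk n).Finite
  | 0 => (Set.finite_lt_nat _).image _
  | n + 1 => ((Set.finite_lt_nat _).image _).union ((Set.finite_lt_nat _).biUnion fun _ _ =>
      (Set.Finite.pi' fun _ => fr_fin rk n).image _)

theorem fr_leaf {rk : List ℕ} {σ : ℕ} (h : σ < rk.length) : ∀ n, leaf σ ∈ Fr rk n
  | 0 => ⟨σ, h, rfl⟩
  | _ + 1 => .inl ⟨σ, h, rfl⟩

theorem fr_node {rk : List ℕ} {σ n : ℕ} (h : σ < rk.length) {c : Fin (rk.getD σ 0) → Tree}
    (hc : ∀ i, c i ∈ Fr rk n) : Tree.node σ _ c ∈ Fr rk (n + 1) :=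
  .inr (Set.mem_biUnion h ⟨c, hc, rfl⟩)

theorem fr_frag {rk : List ℕ} : ∀ {n t}, t ∈ Fr rk n → Frag rk t
  | 0, _, ⟨σ, h, rfl⟩ => .mk σ 0 _ h (.inl rfl) (Fin.elim0 ·)
  | _ + 1, _, .inl ⟨σ, h, rfl⟩ => .mk σ 0 _ h (.inl rfl) (Fin.elim0 ·)
  | n + 1, t, .inr h => by
    simp only [Set.mem_iUnion] at h
    obtain ⟨σ, h, c, hc, rfl⟩ := h
    exact .mk σ _ c h (.inr rfl) fun i => fr_frag (hc i)

section
variable {S : Type}

def Img (δ : ℕ → List S → S) (U : List S) (s0 : S) (σ : ℕ) (ps : List (Bool × List S))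
    (X : List S) : Prop :=
  ∀ ss ∈ tup ps.length U, (∀ i < ps.length, ss.getD i s0 ∈ (ps.getD i (true, [])).2) → δ σ ss ∈ X

def tops (U : List S) : List (Bool × List S) := prod [true, false] U.sublists'

def TR (δ : ℕ → List S → S) (U : List S) (s0 : S) (Z : List (List S)) (σ : ℕ) (p : Bool × List S)
    (b : Bool) (ps : List (Bool × List S)) : Prop :=
  (∀ q ∈ ps, q ∈ tops U) ∧ ((b = true ∧ (∀ s ∈ Z.getD σ [], s ∈ p.2) ∧
    Img δ U s0 σ ps (Z.getD σ [])) ∨ (b = false ∧ p.1 = false ∧ Img δ U s0 σ ps p.2))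

theorem img_iff {δ : ℕ → List S → S} {U : List S} {s0 : S} {σ k : ℕ} {ps : Fin k → Bool × List S}
    (hp : ∀ q ∈ List.ofFn ps, q ∈ tops U) {X : List S} : Img δ U s0 σ (List.ofFn ps) X ↔
      ∀ ss : Fin k → S, (∀ i, ss i ∈ (ps i).2) → δ σ (List.ofFn ss) ∈ X := by
  simp only [Img, List.length_ofFn]
  refine ⟨fun h ss hs => h _ (ofFn_tup fun i => ?_) fun i hi => ?_, fun h ss hs h2 => ?_⟩
  · have := (mem_prod.1 (hp _ (List.mem_ofFn.2 ⟨i, rfl⟩))).2
    exact (List.mem_sublists'.1 this).subset (hs i)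
  · rw [show i = ((⟨i, hi⟩ : Fin _) : ℕ) from rfl, getD_ofFn, getD_ofFn]
    exact hs _
  · obtain ⟨f, rfl, -⟩ := tup_ofFn hs
    exact h f fun i => by simpa only [getD_ofFn] using h2 i i.2

def Ev (rk : List ℕ) (δ : ℕ → List S → S) (Z : List (List S)) : Tree → S → Prop
  | .node σ k c, s => if k = rk.getD σ 0 then
      ∃ ss : Fin k → S, (∀ i, Ev rk δ Z (c i) (ss i)) ∧ s = δ σ (List.ofFn ss)
    else s ∈ Z.getD σ []

variable {rk : List ℕ} {δ : ℕ → List S → S} {U : List S} {Acc : S → Prop} {s0 : S}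

theorem tsl_of_good {Z : List (List S)} {N : ℕ}
    (h : ∀ t, Ground rk t → Acc (st δ t) → Good (TR δ U s0 Z) N t (true, flt U Acc) 0) :
    IsTSL rk {t | Ground rk t ∧ Acc (st δ t)} := by
  let F := {f | f ∈ Fr rk (N + 1) ∧ (∀ σ, f ≠ leaf σ) ∧ ∀ s, Ev rk δ Z f s → s ∈ Z.getD f.root []}
  have h1 : ∀ x t, Der F x t → Ground rk t → Ev rk δ Z x (st δ t) := fun x t hd => by
    induction hd with
    | sub f t hf _ ih =>
      intro ht
      have h2 := fr_frag hf.1
      cases h2 with
      | mk σ k c h3 h4 _ =>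
        have h5 : k ≠ 0 := by
          rintro rfl
          exact hf.2.1 σ (leaf_eq _ _)
        have h6 : 0 ≠ rk.getD σ 0 := by omega
        simp only [leaf, Tree.root, Ev, if_neg h6]
        exact hf.2.2 _ (ih ht)
    | node σ k c c' _ ih =>
      intro ht
      cases ht with
      | mk _ _ _ h3 h4 h5 =>
        simp only [Ev, if_pos h4]
        exact ⟨_, fun i => ih i (h5 i), rfl⟩
  have h2 : ∀ t p m, Good (TR δ U s0 Z) N t p m → Ground rk t → ∃ x ∈ Fr rk (N - m),
      Der F x t ∧ (∀ s, Ev rk δ Z x s → s ∈ p.2) ∧ (p.1 = true → x = leaf t.root) := by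
    intro t p m hg
    induction hg with
    | mk σ k c p m b ps h3 h4 _ ih =>
      intro ht
      cases ht with
      | mk _ _ _ h5 h6 h7 =>
        subst h6
        choose x hx1 hx2 hx3 _ using fun i => ih i (h7 i)
        have h8 : ∀ X, Img δ U s0 σ (List.ofFn ps) X → ∀ s, Ev rk δ Z (.node σ _ x) s → s ∈ X := by
          intro X hX s hs
          simp only [Ev, if_true] at hs
          obtain ⟨ss, h8, rfl⟩ := hs
          exact (img_iff h3.1).1 hX ss fun i => hx3 i _ (h8 i)
        rcases h3.2 with ⟨rfl, h9, h10⟩ | ⟨rfl, h9, h10⟩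
        · refine ⟨leaf σ, fr_leaf h5 _, ?_, fun s hs => h9 s ?_, fun _ => rfl⟩
          · by_cases hk : rk.getD σ 0 = 0
            · have : ∀ k (c : Fin k → Tree), k = 0 → Tree.node σ k c = leaf σ := by
                rintro _ c rfl
                exact leaf_eq _ _
              rw [this _ c hk]
              exact .refl _ _
            · refine .sub (.node σ _ x) _ ⟨fr_node h5 hx1, fun τ hτ => hk ?_, h8 _ h10⟩
                (.node σ _ x c hx2)
              simp only [leaf, Tree.node.injEq] at hτ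
              exact hτ.2.1
          · by_cases hk : rk.getD σ 0 = 0
            · have : ∀ k (c : Fin k → Tree), k = 0 → Tree.node σ k c = leaf σ := by
                rintro _ c rfl
                exact leaf_eq _ _
              exact h8 _ h10 s (by rwa [this _ x hk])
            · simpa only [leaf, Ev, if_neg (Ne.symm hk)] using hs
        · simp only [nx, cond] at h4 hx1
          refine ⟨.node σ _ x, ?_, .node σ _ x c hx2, h8 _ h10, by simp [h9]⟩
          rw [show N - m = N - (m + 1) + 1 by omega]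
          exact fr_node h5 hx1
  refine ⟨{σ | σ < rk.length ∧ ∀ s, Ev rk δ Z (leaf σ) s → Acc s}, F, fun _ h => h.1,
    (fr_fin rk _).subset fun _ h => h.1, fun f hf => ⟨fr_frag hf.1, hf.2.1⟩,
    Set.ext fun t => and_congr_right fun ht => ⟨fun ha => ?_, ?_⟩⟩
  · obtain ⟨x, -, h3, h4, h5⟩ := h2 t _ _ (h t ht ha) ht
    obtain rfl := h5 rfl
    refine ⟨_, ⟨?_, fun s hs => (mem_flt.1 (h4 s hs)).2⟩, der_iff.2 h3⟩
    cases ht
    assumption
  · rintro ⟨σ, hσ, hd⟩
    exact hσ.2 _ (h1 _ _ (der_iff.1 hd) ht)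

theorem good_of_tsl (hU : ∀ t, st δ t ∈ U) (h : IsTSL rk {t | Ground rk t ∧ Acc (st δ t)}) :
    ∃ Z ∈ tup rk.length U.sublists', ∃ N, ∀ t, Ground rk t → Acc (st δ t) →
      Good (TR δ U s0 Z) N t (true, flt U Acc) 0 := by
  obtain ⟨R, F, hR, hF, -, hL⟩ := h
  obtain ⟨N, hN⟩ := (hF.image ht).bddAbove
  let ev : Tree → List S := fun x => flt U fun s => ∃ t, Ground rk t ∧ Der F x t ∧ st δ t = s
  let Z := List.ofFn fun σ : Fin rk.length => ev (leaf σ)
  have hZ : ∀ σ < rk.length, Z.getD σ [] = ev (leaf σ) := fun σ h =>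
    getD_ofFn (fun σ : Fin rk.length => ev (leaf σ)) ⟨σ, h⟩ []
  have key : ∀ x t, Der F x t → Ground rk t → ∀ p : Bool × List S, ∀ m,
      (∀ s ∈ ev x, s ∈ p.2) → (x = leaf x.root ∨ p.1 = false ∧ m + ht x ≤ N) →
        Good (TR δ U s0 Z) N t p m := fun x t hd => by
    induction hd with
    | sub f t hf hd ih =>
      intro hg p m h1 _
      have h2 := ih hg (false, ev f) 0 (fun _ h => h) (.inr ⟨rfl, by simpa using hN ⟨f, hf, rfl⟩⟩)
      have h3 := hd.root
      cases hg with
      | mk σ k c h4 h5 h6 =>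
        obtain ⟨b, ps, h7, -, h8⟩ := h2.inv
        obtain rfl : σ = f.root := h3
        refine .mk _ k c p m true ps ⟨h7.1, .inl ⟨rfl, by rwa [hZ _ h4], ?_⟩⟩ (Nat.zero_le _)
          fun i => (h8 i).mono _ (Nat.zero_le _)
        rcases h7.2 with h9 | h9
        · exact h9.2.2
        · intro ss h10 h11
          obtain ⟨h12, t', h13, h14, h15⟩ := mem_flt.1 (h9.2.2 ss h10 h11)
          rw [hZ _ h4]
          exact mem_flt.2 ⟨h12, t', h13, .sub f t' hf h14, h15⟩
    | node σ k c c' hd ih =>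
      intro hg p m h1 h2
      cases hg with
      | mk _ _ _ h4 h5 h6 =>
        have h7 : ∀ q ∈ List.ofFn fun i => (false, ev (c i)), q ∈ tops U := fun q hq => by
          obtain ⟨i, rfl⟩ := List.mem_ofFn.1 hq
          exact mem_prod.2 ⟨by simp, flt_sub _ _⟩
        have h8 : ∀ X, (∀ s ∈ ev (.node σ k c), s ∈ X) →
            Img δ U s0 σ (List.ofFn fun i => (false, ev (c i))) X := fun X hX =>
          (img_iff h7).2 fun ss hs => by
            choose d h8 h9 h10 using fun i => (mem_flt.1 (hs i)).2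
            have : δ σ (List.ofFn ss) = st δ (.node σ k d) := by simp only [st, h10]
            exact hX _ (mem_flt.2 ⟨this ▸ hU _, _, .mk σ k d h4 h5 h8, .node σ k c d h9, this.symm⟩)
        rcases Nat.eq_zero_or_pos k with rfl | hk
        · rw [leaf_eq] at h1 h8
          exact .mk σ 0 c' p m true _ ⟨h7, .inl ⟨rfl, by rwa [hZ _ h4],
            h8 _ (by rw [hZ _ h4]; exact fun _ h => h)⟩⟩ (Nat.zero_le _) (Fin.elim0 ·)
        · have h9 : p.1 = false ∧ m + ht (.node σ k c) ≤ N := h2.resolve_left fun h => by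
            simp only [leaf, Tree.node.injEq] at h
            omega
          have h10 : ∀ i, ht (c i) + 1 ≤ ht (.node σ k c) := fun i =>
            Finset.le_sup (f := fun i => ht (c i) + 1) (Finset.mem_univ i)
          refine .mk σ k c' p m false _ ⟨h7, .inr ⟨rfl, h9.1, h8 _ h1⟩⟩ ?_ fun i =>
            ih i (h6 i) _ _ (fun _ h => h) (.inr ⟨rfl, ?_⟩)
          · have := h10 ⟨0, hk⟩
            simp only [nx, cond]
            omega
          · have := h10 i
            simp only [nx, cond]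
            omega
  refine ⟨Z, ofFn_tup fun _ => flt_sub _ _, N, fun t hg ha => ?_⟩
  obtain ⟨-, σ, hσ, hd⟩ := (Set.ext_iff.1 hL t).1 ⟨hg, ha⟩
  refine key _ _ (der_iff.1 hd) hg _ _ (fun s hs => ?_) (.inl rfl)
  obtain ⟨h1, t', h2, h3, rfl⟩ := mem_flt.1 hs
  exact mem_flt.2 ⟨h1, ((Set.ext_iff.1 hL t').2 ⟨h2, σ, hσ, der_iff.2 h3⟩).2⟩

theorem tsl_iff (hU : ∀ t, st δ t ∈ U) : IsTSL rk {t | Ground rk t ∧ Acc (st δ t)} ↔
    ∃ Z ∈ tup rk.length U.sublists',
      Cert rk δ U Acc (tops U) (TR δ U s0 Z) s0 (true, flt U Acc) := by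
  constructor
  · intro h
    obtain ⟨Z, hZ, N, h⟩ := good_of_tsl (s0 := s0) hU h
    exact ⟨Z, hZ, complete hU (mem_prod.2 ⟨by simp, flt_sub _ _⟩) (fun _ _ _ _ h => h.1) h⟩
  · rintro ⟨Z, -, h⟩
    obtain ⟨N, h⟩ := sound h
    exact tsl_of_good h

end

end Pool.Agent.Helper51.TSL
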