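import Pool.Agent.Helper51.TSL.B

/-! Decidability of the certificates: everything is primitive recursive. -/

set_option autoImplicit false

namespace Pool.Agent.Helper51.TSL

open Classical

section prim

variable {α β γ σ : Type} [Primcodable α] [Primcodable β] [Primcodable γ] [Primcodable σ]

theorem pf1 {f : σ → α × β} (h : Primrec f) : Primrec fun a => (f a).1 := Primrec.fst.comp h

theorem pf2 {f : σ → α × β} (h : Primrec f) : Primrec fun a => (f a).2 := Primrec.snd.comp h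

theorem plen {l : α → List β} (h : Primrec l) : Primrec fun a => (l a).length :=
  Primrec.list_length.comp h

theorem pgetD {l : α → List β} {n : α → ℕ} {d : β} (h : Primrec l) (hn : Primrec n) :
    Primrec fun a => (l a).getD (n a) d := (Primrec.list_getD d).comp h hn

theorem pgetD' {l : α → List β} {n : α → ℕ} {d : α → β} (h : Primrec l) (hn : Primrec n)
    (hd : Primrec d) : Primrec fun a => (l a).getD (n a) (d a) :=
  (Primrec.option_getD.comp (Primrec.list_getElem?.comp h hn) hd).of_eq fun a => by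
    simp [List.getD_eq_getElem?_getD]

theorem pcons {x : α → β} {l : α → List β} (hx : Primrec x) (h : Primrec l) :
    Primrec fun a => x a :: l a := Primrec.list_cons.comp hx h

theorem prange {n : α → ℕ} (hn : Primrec n) : Primrec fun a => List.range (n a) :=
  Primrec.list_range.comp hn

theorem psucc {n : α → ℕ} (hn : Primrec n) : Primrec fun a => n a + 1 := Primrec.succ.comp hn

theorem psub {l : α → List β} (h : Primrec l) : Primrec fun a => (l a).sublists' := by
  have : Primrec fun L : List β => L.foldr (fun x M => M ++ M.map (List.cons x)) [[]] := by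
    refine Primrec.list_foldr Primrec.id (Primrec.const _)
      (h := fun (_ : List β) (z : β × List (List β)) => z.2 ++ z.2.map (List.cons z.1)) ?_
    refine Primrec.list_append.comp (Primrec.snd.comp Primrec.snd) ?_
    exact Primrec.list_map (f := fun z : List β × β × List (List β) => z.2.2)
      (g := fun z l => z.2.1 :: l) (by exact Primrec.snd.comp Primrec.snd)
      (Primrec.list_cons.comp (Primrec.fst.comp (Primrec.snd.comp Primrec.fst)) Primrec.snd)
  refine (this.comp h).of_eq fun a => ?_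
  induction l a with
  | nil => rfl
  | cons x l ih => rw [List.foldr_cons, ih, List.sublists'_cons]

theorem pprod {l : α → List β} {m : α → List γ} (hl : Primrec l) (hm : Primrec m) :
    Primrec fun a => prod (l a) (m a) :=
  Primrec.list_flatMap hl (g := fun a b => (m a).map fun c => (b, c))
    (Primrec.list_map (f := fun z : α × β => m z.1) (hm.comp Primrec.fst) (g := fun z c => (z.2, c))
      (Primrec.pair (Primrec.snd.comp Primrec.fst) Primrec.snd))

theorem ptup {k : α → ℕ} {l : α → List β} (hk : Primrec k) (hl : Primrec l) :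
    Primrec fun a => tup (k a) (l a) := by
  refine Primrec.nat_iterate hk (Primrec.const [[]])
    (h := fun a L => (l a).flatMap fun x => L.map fun m => x :: m) ?_
  refine Primrec.list_flatMap (f := fun z : α × List (List β) => l z.1) (hl.comp Primrec.fst)
    (g := fun z x => z.2.map fun m => x :: m) ?_
  exact Primrec.list_map (f := fun z : (α × List (List β)) × β => z.1.2)
    (Primrec.snd.comp Primrec.fst) (g := fun z m => z.2 :: m)
    (Primrec.list_cons.comp (Primrec.snd.comp Primrec.fst) Primrec.snd)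

theorem pand {p q : α → Prop} (hp : PrimrecPred p) (hq : PrimrecPred q) :
    PrimrecPred fun a => p a ∧ q a := hp.and hq

theorem por {p q : α → Prop} (hp : PrimrecPred p) (hq : PrimrecPred q) :
    PrimrecPred fun a => p a ∨ q a := hp.or hq

theorem pnot {p : α → Prop} (hp : PrimrecPred p) : PrimrecPred fun a => ¬ p a := hp.not

theorem pimp {p q : α → Prop} (hp : PrimrecPred p) (hq : PrimrecPred q) :
    PrimrecPred fun a => p a → q a := (hp.not.or hq).of_eq fun a => by tauto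

theorem pcomp {p : β → Prop} (hp : PrimrecPred p) {f : α → β} (hf : Primrec f) :
    PrimrecPred fun a => p (f a) := hp.comp hf

theorem peq {f g : α → β} (hf : Primrec f) (hg : Primrec g) : PrimrecPred fun a => f a = g a :=
  Primrec.eq.comp hf hg

theorem plt {f g : α → ℕ} (hf : Primrec f) (hg : Primrec g) : PrimrecPred fun a => f a < g a :=
  Primrec.nat_lt.comp hf hg

theorem pall {l : α → List β} (hl : Primrec l) {p : α → β → Prop}
    (hp : PrimrecPred fun z : α × β => p z.1 z.2) : PrimrecPred fun a => ∀ b ∈ l a, p a b := by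
  have h : PrimrecRel fun (b : β) (a : α) => p a b := hp.comp (Primrec.snd.pair Primrec.fst)
  exact h.forall_mem_list.comp hl Primrec.id

theorem pex {l : α → List β} (hl : Primrec l) {p : α → β → Prop}
    (hp : PrimrecPred fun z : α × β => p z.1 z.2) : PrimrecPred fun a => ∃ b ∈ l a, p a b := by
  have h : PrimrecRel fun (b : β) (a : α) => p a b := hp.comp (Primrec.snd.pair Primrec.fst)
  exact h.exists_mem_list.comp hl Primrec.id

theorem palln {n : α → ℕ} (hn : Primrec n) {p : α → ℕ → Prop}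
    (hp : PrimrecPred fun z : α × ℕ => p z.1 z.2) : PrimrecPred fun a => ∀ b < n a, p a b :=
  (pall (prange hn) hp).of_eq fun a => by simp

theorem pexn {n : α → ℕ} (hn : Primrec n) {p : α → ℕ → Prop}
    (hp : PrimrecPred fun z : α × ℕ => p z.1 z.2) : PrimrecPred fun a => ∃ b < n a, p a b :=
  (pex (prange hn) hp).of_eq fun a => by simp

theorem pmem {x : α → β} {l : α → List β} (hx : Primrec x) (hl : Primrec l) :
    PrimrecPred fun a => x a ∈ l a :=
  (pex hl (p := fun a b => b = x a) (peq Primrec.snd (hx.comp Primrec.fst))).of_eq fun a => by simp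

theorem pflt {l : α → List β} (hl : Primrec l) {p : α → β → Prop}
    (hp : PrimrecPred fun z : α × β => p z.1 z.2) : Primrec fun a => flt (l a) (p a) := by
  have h : PrimrecRel fun (b : β) (a : α) => p a b := hp.comp (Primrec.snd.pair Primrec.fst)
  exact h.listFilter.comp hl Primrec.id

end prim

attribute [local fun_prop] Primrec
attribute [local fun_prop] Primrec.id Primrec.const Primrec.comp Primrec.pair Primrec.fst
  Primrec.snd pf1 pf2 plen pgetD pcons prange psucc psub pprod ptup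

section cert

variable {α S T : Type} [Primcodable α] [Primcodable S] [Primcodable T]

theorem p_ans : PrimrecPred fun z : (Pos S T × ℕ) × (Pos S T × ℕ) × List (T × Bool × T) =>
    Ans z.1 z.2.1 z.2.2 := by
  refine pall (l := fun z : (Pos S T × ℕ) × (Pos S T × ℕ) × List (T × Bool × T) => z.2.1.1.2.1)
    (by fun_prop) (p := fun z p => ∃ e ∈ z.2.2, e.1 ∈ z.1.1.2.1 ∧ e.2.2 = p ∧ (e.2.1 = true ∨
      (e.1 ∉ z.1.1.2.2 ∧ (p ∈ z.2.1.1.2.2 ∨ z.2.1.2 < z.1.2)) ∨
        (p ∈ z.2.1.1.2.2 ∧ z.2.1.2 < z.1.2))) ?_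
  refine pex (l := fun z : ((Pos S T × ℕ) × (Pos S T × ℕ) × List (T × Bool × T)) × T =>
    z.1.2.2) (by fun_prop) (p := fun z e => e.1 ∈ z.1.1.1.2.1 ∧ e.2.2 = z.2 ∧ (e.2.1 = true ∨
      (e.1 ∉ z.1.1.1.2.2 ∧ (z.2 ∈ z.1.2.1.1.2.2 ∨ z.1.2.1.2 < z.1.1.2)) ∨
        (z.2 ∈ z.1.2.1.1.2.2 ∧ z.1.2.1.2 < z.1.1.2))) ?_
  refine pand (pmem (by fun_prop) (by fun_prop)) (pand (peq (by fun_prop) (by fun_prop)) ?_)
  refine por (peq (by fun_prop) (by fun_prop)) (por (pand (pnot (pmem (by fun_prop)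
    (by fun_prop))) (por (pmem (by fun_prop) (by fun_prop)) (plt (by fun_prop) (by fun_prop))))
    (pand (pmem (by fun_prop) (by fun_prop)) (plt (by fun_prop) (by fun_prop))))

theorem p_cover {t0 : α → T} {TL : α → List T} {Tr : α → ℕ → T → Bool → List T → Prop}
    (hTL : Primrec TL) (ht : Primrec t0)
    (hTr : PrimrecPred fun z : α × ℕ × T × Bool × List T => Tr z.1 z.2.1 z.2.2.1 z.2.2.2.1 z.2.2.2.2) :
    PrimrecPred fun z : α × ℕ × ℕ × List T × List (List (T × Bool × T)) =>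
      Cover (TL z.1) (Tr z.1) (t0 z.1) z.2.1 z.2.2.1 z.2.2.2.1 z.2.2.2.2 := by
  refine pall (l := fun z : α × ℕ × ℕ × List T × List (List (T × Bool × T)) => z.2.2.2.1)
    (by fun_prop) (p := fun z p => ∀ b ∈ [true, false], ∀ ps ∈ tup z.2.2.1 (TL z.1),
      Tr z.1 z.2.1 p b ps → ∃ i < z.2.2.1, (p, b, ps.getD i (t0 z.1)) ∈ z.2.2.2.2.getD i []) ?_
  refine pall (l := fun z : (α × ℕ × ℕ × List T × List (List (T × Bool × T))) × T => [true, false])
    (by fun_prop) (p := fun z b => ∀ ps ∈ tup z.1.2.2.1 (TL z.1.1),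
      Tr z.1.1 z.1.2.1 z.2 b ps → ∃ i < z.1.2.2.1, (z.2, b, ps.getD i (t0 z.1.1)) ∈
        z.1.2.2.2.2.getD i []) ?_
  refine pall (l := fun z : ((α × ℕ × ℕ × List T × List (List (T × Bool × T))) × T) × Bool =>
    tup z.1.1.2.2.1 (TL z.1.1.1)) (by fun_prop) (p := fun z ps =>
      Tr z.1.1.1 z.1.1.2.1 z.1.2 z.2 ps → ∃ i < z.1.1.2.2.1, (z.1.2, z.2, ps.getD i (t0 z.1.1.1)) ∈
        z.1.1.2.2.2.2.getD i []) ?_
  refine pimp (pcomp hTr (f := fun z : (((α × ℕ × ℕ × List T × List (List (T × Bool × T))) × T)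
    × Bool) × List T => (z.1.1.1.1, z.1.1.1.2.1, z.1.1.2, z.1.2, z.2)) (by fun_prop)) ?_
  refine pexn (n := fun z : (((α × ℕ × ℕ × List T × List (List (T × Bool × T))) × T)
    × Bool) × List T => z.1.1.1.2.2.1) (by fun_prop) (p := fun z i =>
      (z.1.1.2, z.1.2, z.2.getD i (t0 z.1.1.1.1)) ∈ z.1.1.1.2.2.2.2.getD i []) ?_
  exact pmem (Primrec.pair (by fun_prop) (Primrec.pair (by fun_prop) (pgetD' (by fun_prop)
    (by fun_prop) (by fun_prop)))) (by fun_prop)

variable {rk : α → List ℕ} {δ : α → ℕ → List S → S} {U : α → List S} {Acc : α → S → Prop}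
  {TL : α → List T} {Tr : α → ℕ → T → Bool → List T → Prop} {s0 : S} {t0 : α → T}

theorem ptrip {l : α → List T} (hl : Primrec l) : Primrec fun a => trip (l a) := by
  unfold trip
  fun_prop

theorem pposs {u : α → List S} {l : α → List T} (hu : Primrec u) (hl : Primrec l) :
    Primrec fun a => poss (u a) (l a) := by
  unfold poss
  fun_prop

attribute [local fun_prop] ptrip pposs

theorem p_step (hrk : Primrec rk) (hTL : Primrec TL) (ht : Primrec t0)
    (hδ : Primrec fun z : α × ℕ × List S => δ z.1 z.2.1 z.2.2)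
    (hTr : PrimrecPred fun z : α × ℕ × T × Bool × List T => Tr z.1 z.2.1 z.2.2.1 z.2.2.2.1 z.2.2.2.2) :
    PrimrecPred fun z : α × List S × List (Pos S T × ℕ) × (Pos S T × ℕ) =>
      StepOK (rk z.1) (δ z.1) (TL z.1) (Tr z.1) s0 (t0 z.1) z.2.1 z.2.2.1 z.2.2.2 := by
  refine palln (n := fun z : α × List S × List (Pos S T × ℕ) × (Pos S T × ℕ) => (rk z.1).length)
    (by fun_prop) (p := fun z σ => ∀ ss ∈ tup ((rk z.1).getD σ 0) z.2.1, δ z.1 σ ss = z.2.2.2.1.1 →
    ∀ Es ∈ tup ((rk z.1).getD σ 0) (trip (TL z.1)).sublists',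
      Cover (TL z.1) (Tr z.1) (t0 z.1) σ ((rk z.1).getD σ 0) z.2.2.2.1.2.1 Es →
      ∃ y ∈ z.2.2.1, ∃ i < (rk z.1).getD σ 0, y.1.1 = ss.getD i s0 ∧
        Ans z.2.2.2 y (Es.getD i [])) ?_
  refine pall (l := fun z : (α × List S × List (Pos S T × ℕ) × (Pos S T × ℕ)) × ℕ =>
    tup ((rk z.1.1).getD z.2 0) z.1.2.1)
    (by fun_prop) (p := fun z ss => δ z.1.1 z.2 ss = z.1.2.2.2.1.1 →
    ∀ Es ∈ tup ((rk z.1.1).getD z.2 0) (trip (TL z.1.1)).sublists',
      Cover (TL z.1.1) (Tr z.1.1) (t0 z.1.1) z.2 ((rk z.1.1).getD z.2 0) z.1.2.2.2.1.2.1 Es →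
      ∃ y ∈ z.1.2.2.1, ∃ i < (rk z.1.1).getD z.2 0, y.1.1 = ss.getD i s0 ∧
        Ans z.1.2.2.2 y (Es.getD i [])) ?_
  refine pimp (peq (hδ.comp (g := fun z : ((α × List S × List (Pos S T × ℕ) × (Pos S T × ℕ)) × ℕ)
    × List S => (z.1.1.1, z.1.2, z.2)) (by fun_prop)) (by fun_prop)) ?_
  refine pall (l := fun z : ((α × List S × List (Pos S T × ℕ) × (Pos S T × ℕ)) × ℕ) × List S =>
    tup ((rk z.1.1.1).getD z.1.2 0) (trip (TL z.1.1.1)).sublists')
    (by fun_prop) (p := fun z Es => 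
      Cover (TL z.1.1.1) (Tr z.1.1.1) (t0 z.1.1.1) z.1.2 ((rk z.1.1.1).getD z.1.2 0) z.1.1.2.2.2.1.2.1 Es →
      ∃ y ∈ z.1.1.2.2.1, ∃ i < (rk z.1.1.1).getD z.1.2 0, y.1.1 = z.2.getD i s0 ∧
        Ans z.1.1.2.2.2 y (Es.getD i [])) ?_
  refine pimp (pcomp (p_cover hTL ht hTr) (f := fun z : (((α × List S × List (Pos S T × ℕ) ×
    (Pos S T × ℕ)) × ℕ) × List S) × List (List (T × Bool × T)) =>
    (z.1.1.1.1, z.1.1.2, (rk z.1.1.1.1).getD z.1.1.2 0, z.1.1.1.2.2.2.1.2.1, z.2))
    (by fun_prop)) ?_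
  refine pex (l := fun z : (((α × List S × List (Pos S T × ℕ) ×
    (Pos S T × ℕ)) × ℕ) × List S) × List (List (T × Bool × T)) => z.1.1.1.2.2.1) (by fun_prop)
    (p := fun z y => ∃ i < (rk z.1.1.1.1).getD z.1.1.2 0, y.1.1 = z.1.2.getD i s0 ∧
        Ans z.1.1.1.2.2.2 y (z.2.getD i [])) ?_
  refine pexn (n := fun z : ((((α × List S × List (Pos S T × ℕ) ×
    (Pos S T × ℕ)) × ℕ) × List S) × List (List (T × Bool × T))) × (Pos S T × ℕ) =>
    (rk z.1.1.1.1.1).getD z.1.1.1.2 0) (by fun_prop)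
    (p := fun z i => z.2.1.1 = z.1.1.2.getD i s0 ∧
        Ans z.1.1.1.1.2.2.2 z.2 (z.1.2.getD i [])) ?_
  refine pand (peq (by fun_prop) (by fun_prop)) (pcomp p_ans (f := fun z : (((((α × List S ×
    List (Pos S T × ℕ) × (Pos S T × ℕ)) × ℕ) × List S) × List (List (T × Bool × T))) ×
    (Pos S T × ℕ)) × ℕ => (z.1.1.1.1.1.2.2.2, z.1.2, z.1.1.2.getD z.2 [])) (by fun_prop))

theorem p_cert (hrk : Primrec rk) (hU : Primrec U) (hTL : Primrec TL)
    (hAcc : PrimrecPred fun z : α × S => Acc z.1 z.2) (ht : Primrec t0)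
    (hδ : Primrec fun z : α × ℕ × List S => δ z.1 z.2.1 z.2.2)
    (hTr : PrimrecPred fun z : α × ℕ × T × Bool × List T =>
      Tr z.1 z.2.1 z.2.2.1 z.2.2.2.1 z.2.2.2.2) :
    PrimrecPred fun a => Cert (rk a) (δ a) (U a) (Acc a) (TL a) (Tr a) s0 (t0 a) := by
  refine pex (l := fun a => (U a).sublists') (by fun_prop) (p := fun a Rc =>
    (∀ σ < (rk a).length, ∀ ss ∈ tup ((rk a).getD σ 0) Rc, δ a σ ss ∈ Rc) ∧
    ∃ W ∈ (prod (poss (U a) (TL a)) (List.range ((poss (U a) (TL a)).length + 1))).sublists',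
      (∀ s ∈ Rc, Acc a s → ∃ x ∈ W, x.1 = (s, [t0 a], [t0 a])) ∧
        ∀ x ∈ W, StepOK (rk a) (δ a) (TL a) (Tr a) s0 (t0 a) Rc W x) ?_
  refine pand ?_ ?_
  · refine palln (n := fun z : α × List S => (rk z.1).length) (by fun_prop)
      (p := fun z σ => ∀ ss ∈ tup ((rk z.1).getD σ 0) z.2, δ z.1 σ ss ∈ z.2) ?_
    refine pall (l := fun z : (α × List S) × ℕ => tup ((rk z.1.1).getD z.2 0) z.1.2) (by fun_prop)
      (p := fun z ss => δ z.1.1 z.2 ss ∈ z.1.2) ?_
    exact pmem (hδ.comp (g := fun z : ((α × List S) × ℕ) × List S => (z.1.1.1, z.1.2, z.2))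
      (by fun_prop)) (by fun_prop)
  refine pex (l := fun z : α × List S => (prod (poss (U z.1) (TL z.1))
    (List.range ((poss (U z.1) (TL z.1)).length + 1))).sublists') (by fun_prop)
    (p := fun z W => (∀ s ∈ z.2, Acc z.1 s → ∃ x ∈ W, x.1 = (s, [t0 z.1], [t0 z.1])) ∧
        ∀ x ∈ W, StepOK (rk z.1) (δ z.1) (TL z.1) (Tr z.1) s0 (t0 z.1) z.2 W x) ?_
  refine pand ?_ ?_
  · refine pall (l := fun z : (α × List S) × List (Pos S T × ℕ) => z.1.2) (by fun_prop)
      (p := fun z s => Acc z.1.1 s → ∃ x ∈ z.2, x.1 = (s, [t0 z.1.1], [t0 z.1.1])) ?_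
    refine pimp (pcomp hAcc (f := fun z : ((α × List S) × List (Pos S T × ℕ)) × S =>
      (z.1.1.1, z.2)) (by fun_prop)) ?_
    refine pex (l := fun z : ((α × List S) × List (Pos S T × ℕ)) × S => z.1.2) (by fun_prop)
      (p := fun z x => x.1 = (z.2, [t0 z.1.1.1], [t0 z.1.1.1])) ?_
    exact peq (by fun_prop) (by fun_prop)
  · refine pall (l := fun z : (α × List S) × List (Pos S T × ℕ) => z.2) (by fun_prop)
      (p := fun z x => StepOK (rk z.1.1) (δ z.1.1) (TL z.1.1) (Tr z.1.1) s0 (t0 z.1.1) z.1.2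
        z.2 x) ?_
    exact pcomp (p_step (s0 := s0) hrk hTL ht hδ hTr) (f := fun z : ((α × List S) × List (Pos S T × ℕ)) × (Pos S T × ℕ) =>
      (z.1.1.1, z.1.1.2, z.1.2, z.2)) (by fun_prop)

end cert

section aut

/-- The states that a tree automaton can reach. -/
def qs (Δ : List (ℕ × List ℕ × ℕ)) : List ℕ := Δ.map fun t => t.2.2

/-- The subset construction. -/
noncomputable def dl (Δ : List (ℕ × List ℕ × ℕ)) (σ : ℕ) (ss : List (List ℕ)) : List ℕ :=
  flt (qs Δ) fun q => ∃ t ∈ Δ, t.1 = σ ∧ t.2.2 = q ∧ t.2.1.length = ss.length ∧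
    ∀ i < ss.length, t.2.1.getD i 0 ∈ ss.getD i []

def acc (E : List ℕ) (s : List ℕ) : Prop := ∃ q ∈ E, q ∈ s

theorem st_sub (Δ : List (ℕ × List ℕ × ℕ)) (t : Tree) : st (dl Δ) t ∈ (qs Δ).sublists' := by
  cases t with
  | node σ k c => exact flt_sub _ _

theorem mem_st (Δ : List (ℕ × List ℕ × ℕ)) (t : Tree) : ∀ q, q ∈ st (dl Δ) t ↔ Run Δ t q := by
  induction t with
  | node σ k c ih =>
    intro q
    simp only [st, dl, mem_flt, List.length_ofFn]
    constructor
    · rintro ⟨-, ⟨σ', l, q'⟩, h1, rfl, rfl, h2, h3⟩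
      simp only at h1 h2 h3 ⊢
      refine .mk σ' k c (fun i => l.getD i 0) q' ?_ fun i => ?_
      · have : List.ofFn (fun i : Fin k => l.getD i 0) = l := by
          apply List.ext_getElem
          · simp [h2]
          · intro n h4 h5
            simp [List.getD_eq_getElem?_getD, List.getElem?_eq_getElem h5]
        rw [this]
        exact h1
      · have := h3 i i.2
        rw [getD_ofFn] at this
        exact (ih i _).1 this
    · intro h
      cases h with
      | mk _ _ _ qs' _ h1 h2 =>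
        refine ⟨List.mem_map.2 ⟨_, h1, rfl⟩, _, h1, rfl, rfl, by simp, fun i hi => ?_⟩
        rw [show i = ((⟨i, hi⟩ : Fin k) : ℕ) from rfl, getD_ofFn, getD_ofFn]
        exact (ih _ _).2 (h2 _)

theorem autLang_eq (rk : List ℕ) (Δ : List (ℕ × List ℕ × ℕ)) (E : List ℕ) :
    autLang rk Δ E = {t | Ground rk t ∧ acc E (st (dl Δ) t)} := by
  ext t
  simp only [autLang, acc, mem_st, Set.mem_ofPred_eq]

theorem isTSL_iff (rk : List ℕ) (Δ : List (ℕ × List ℕ × ℕ)) (E : List ℕ) :
    IsTSL rk (autLang rk Δ E) ↔ ∃ Z ∈ tup rk.length (qs Δ).sublists'.sublists',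
      Cert rk (dl Δ) (qs Δ).sublists' (acc E) (tops (qs Δ).sublists')
        (TR (dl Δ) (qs Δ).sublists' [] Z) [] (true, flt (qs Δ).sublists' (acc E)) := by
  rw [autLang_eq]
  exact tsl_iff (st_sub Δ)

variable {α : Type} [Primcodable α]

theorem pqs {Δ : α → List (ℕ × List ℕ × ℕ)} (h : Primrec Δ) : Primrec fun a => qs (Δ a) :=
  Primrec.list_map h (g := fun _ (t : ℕ × List ℕ × ℕ) => t.2.2)
    (Primrec.snd.comp (Primrec.snd.comp Primrec.snd))

attribute [local fun_prop] pqs

theorem pdl {Δ : α → List (ℕ × List ℕ × ℕ)} (h : Primrec Δ) {σ : α → ℕ}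
    (hσ : Primrec σ) {ss : α → List (List ℕ)} (hs : Primrec ss) :
    Primrec fun a => dl (Δ a) (σ a) (ss a) := by
  refine pflt (l := fun a => qs (Δ a)) (by fun_prop) (p := fun a q => ∃ t ∈ Δ a, t.1 = σ a ∧
    t.2.2 = q ∧ t.2.1.length = (ss a).length ∧ ∀ i < (ss a).length,
      t.2.1.getD i 0 ∈ (ss a).getD i []) ?_
  refine pex (l := fun z : α × ℕ => Δ z.1) (by fun_prop) (p := fun z t => t.1 = σ z.1 ∧
    t.2.2 = z.2 ∧ t.2.1.length = (ss z.1).length ∧ ∀ i < (ss z.1).length,
      t.2.1.getD i 0 ∈ (ss z.1).getD i []) ?_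
  refine pand (peq (by fun_prop) (by fun_prop)) (pand (peq (by fun_prop) (by fun_prop))
    (pand (peq (by fun_prop) (by fun_prop)) ?_))
  refine palln (n := fun z : (α × ℕ) × (ℕ × List ℕ × ℕ) => (ss z.1.1).length) (by fun_prop)
    (p := fun z i => z.2.2.1.getD i 0 ∈ (ss z.1.1).getD i []) ?_
  exact pmem (by fun_prop) (by fun_prop)

attribute [local fun_prop] pdl

theorem pacc {E : α → List ℕ} (hE : Primrec E) {s : α → List ℕ} (hs : Primrec s) :
    PrimrecPred fun a => acc (E a) (s a) :=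
  pex hE (p := fun a q => q ∈ s a) (pmem (by fun_prop) (by fun_prop))

theorem ptops {U : α → List (List ℕ)} (hU : Primrec U) : Primrec fun a => tops (U a) := by
  unfold tops
  fun_prop

attribute [local fun_prop] ptops

theorem pimg {Δ : α → List (ℕ × List ℕ × ℕ)} (h : Primrec Δ) {U : α → List (List ℕ)}
    (hU : Primrec U) {σ : α → ℕ} (hσ : Primrec σ) {ps : α → List (Bool × List (List ℕ))}
    (hp : Primrec ps) {X : α → List (List ℕ)} (hX : Primrec X) :
    PrimrecPred fun a => Img (dl (Δ a)) (U a) [] (σ a) (ps a) (X a) := by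
  refine pall (l := fun a => tup (ps a).length (U a)) (by fun_prop) (p := fun a ss =>
    (∀ i < (ps a).length, ss.getD i [] ∈ ((ps a).getD i (true, [])).2) →
      dl (Δ a) (σ a) ss ∈ X a) ?_
  refine pimp ?_ (pmem (by fun_prop) (by fun_prop))
  refine palln (n := fun z : α × List (List ℕ) => (ps z.1).length) (by fun_prop)
    (p := fun z i => z.2.getD i [] ∈ ((ps z.1).getD i (true, [])).2) ?_
  exact pmem (by fun_prop) (by fun_prop)

theorem pTR {Δ : α → List (ℕ × List ℕ × ℕ)} (h : Primrec Δ) {U : α → List (List ℕ)}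
    (hU : Primrec U) {Z : α → List (List (List ℕ))} (hZ : Primrec Z) {σ : α → ℕ}
    (hσ : Primrec σ) {p : α → Bool × List (List ℕ)} (hp : Primrec p) {b : α → Bool}
    (hb : Primrec b) {ps : α → List (Bool × List (List ℕ))} (hps : Primrec ps) :
    PrimrecPred fun a => TR (dl (Δ a)) (U a) [] (Z a) (σ a) (p a) (b a) (ps a) := by
  refine pand (pall hps (p := fun a q => q ∈ tops (U a)) (pmem (by fun_prop) (by fun_prop)))
    (por (pand (peq (by fun_prop) (by fun_prop)) (pand ?_ (pimg h hU hσ hps (by fun_prop))))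
      (pand (peq (by fun_prop) (by fun_prop)) (pand (peq (by fun_prop) (by fun_prop))
        (pimg h hU hσ hps (by fun_prop)))))
  exact pall (l := fun a => (Z a).getD (σ a) []) (by fun_prop) (p := fun a s => s ∈ (p a).2)
    (pmem (by fun_prop) (by fun_prop))

theorem primrecPred_isTSL : PrimrecPred fun c : List ℕ × List (ℕ × List ℕ × ℕ) × List ℕ =>
    IsTSL c.1 (autLang c.1 c.2.1 c.2.2) := by
  refine PrimrecPred.of_eq ?_ fun c => (isTSL_iff c.1 c.2.1 c.2.2).symm
  refine pex (l := fun c : List ℕ × List (ℕ × List ℕ × ℕ) × List ℕ =>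
    tup c.1.length (qs c.2.1).sublists'.sublists') (by fun_prop) (p := fun c Z =>
      Cert c.1 (dl c.2.1) (qs c.2.1).sublists' (acc c.2.2) (tops (qs c.2.1).sublists')
        (TR (dl c.2.1) (qs c.2.1).sublists' [] Z) []
          (true, flt (qs c.2.1).sublists' (acc c.2.2))) ?_
  exact p_cert
    (rk := fun z : (List ℕ × List (ℕ × List ℕ × ℕ) × List ℕ) × List (List (List ℕ)) => z.1.1)
    (δ := fun z => dl z.1.2.1) (U := fun z => (qs z.1.2.1).sublists')
    (Acc := fun z => acc z.1.2.2) (TL := fun z => tops (qs z.1.2.1).sublists')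
    (Tr := fun z => TR (dl z.1.2.1) (qs z.1.2.1).sublists' [] z.2) (s0 := [])
    (t0 := fun z => (true, flt (qs z.1.2.1).sublists' (acc z.1.2.2)))
    (by fun_prop) (by fun_prop) (by fun_prop) (pacc (by fun_prop) (by fun_prop))
    (Primrec.pair (by fun_prop) (pflt (by fun_prop) (pacc (by fun_prop) (by fun_prop))))
    (by fun_prop) (pTR (by fun_prop) (by fun_prop) (by fun_prop) (by fun_prop) (by fun_prop)
      (by fun_prop) (by fun_prop))

end aut

end Pool.Agent.Helper51.TSL
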